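import Pool.Agent.L0h44.AS.DelS

/-!
# Forbidding a proportion `η` of the values of the unknown `x`

Let `Y` be ANY set of at most `η N` integers `x ≤ 2 N`.  For `0 ≤ κ < 1` the number of the integers
`n` in `(N, 2 N]` for which the system `φ(n - x) + 1 = n - x`, `φ(n + x) + 1 = n + x` has at most
`κ` times the number of solutions `x ∉ Y` predicted (for all the positive `x`) by Hardy and
Littlewood is at most `C exp (- exp (c (1 - κ) / √η)) N + N / (log N) ^ B`; conversely, for suitable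
sets `Y` at least `exp (- exp (C / √η)) N` of these `n` have no solution `x ∉ Y` at all.
-/

set_option autoImplicit false

namespace Pool.Agent.Results.MP_967f73_nt.DeletingSolutions

open Finset

/-- `x` is a solution of the system for `n` (with `x < n`, so that `n - x ≥ 1`). -/
def IsSol (n x : ℕ) : Prop :=
  x < n ∧ Nat.totient (n - x) + 1 = n - x ∧ Nat.totient (n + x) + 1 = n + x

open Classical in
/-- The number of the positive solutions `x ∉ Y` of the system for `n`. -/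
noncomputable def solsOutside (Y : Finset ℕ) (n : ℕ) : ℕ :=
  ((Icc 1 n).filter (fun x => IsSol n x ∧ x ∉ Y)).card

/-- The twin prime constant `∏_{p > 2} (1 - 1 / (p - 1) ^ 2)`. -/
noncomputable def C₂ : ℝ := ⨅ z : ℕ, ∏ p ∈ (Icc 3 z).filter Nat.Prime, (1 - 1 / ((p : ℝ) - 1) ^ 2)

/-- The prediction of Hardy and Littlewood for the number of the positive solutions `x`:
`C₂ ∏_{p ∣ n, p > 2} (p - 1) / (p - 2) · 2 n / (log 2 n) ^ 2`. -/
noncomputable def prediction (n : ℕ) : ℝ :=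
  C₂ * (∏ p ∈ n.primeFactors.filter (fun p => 2 < p), ((p : ℝ) - 1) / ((p : ℝ) - 2)) *
    (2 * n / Real.log (2 * n) ^ 2)

lemma tot_iff (p : ℕ) (hp : 0 < p) : Nat.totient p + 1 = p ↔ p.Prime := by
  constructor
  · intro h
    have h1 : Nat.totient p = p - 1 := by omega
    exact (Nat.totient_eq_iff_prime hp).1 h1
  · intro h
    rw [Nat.totient_prime h]
    have := h.pos
    omega

open Pool.Agent.L0h44.AS in
lemma sol_iff (n x : ℕ) (h : x < n) : IsSol n x ↔ pr x n := by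
  unfold IsSol pr
  have h1 : Nat.dist x n = n - x := by rw [Nat.dist]; omega
  rw [h1, tot_iff (n - x) (by omega), tot_iff (n + x) (by omega), add_comm x n]
  constructor
  · rintro ⟨_, a, b⟩; exact ⟨b, a⟩
  · rintro ⟨a, b⟩; exact ⟨h, b, a⟩

open Pool.Agent.L0h44.AS in
lemma sols_eq (Y : Finset ℕ) (n : ℕ) : solsOutside Y n = so Y n := by
  classical
  unfold solsOutside so
  congr 1
  ext x
  rw [mem_filter, mem_filter, mem_Icc, mem_Icc]
  constructor
  · rintro ⟨h1, h2, h3⟩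
    have h4 := h2.1
    exact ⟨by omega, (sol_iff n x h4).1 h2, h3⟩
  · rintro ⟨h1, h2, h3⟩
    exact ⟨by omega, (sol_iff n x (by omega)).2 h2, h3⟩

open Pool.Agent.H560R3.GB in
lemma pred_eq (n : ℕ) (hn : 1 ≤ n) : prediction n = HL (2 * n) / 2 := by
  unfold prediction HL sing
  have h1 : (2 * n).primeFactors.filter (fun p => 2 < p) = n.primeFactors.filter (fun p => 2 < p) := by
    ext p
    simp only [mem_filter, Nat.mem_primeFactors]
    constructor
    · rintro ⟨⟨hp, hd, _⟩, h2⟩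
      refine ⟨⟨hp, ?_, by omega⟩, h2⟩
      rcases (Nat.Prime.dvd_mul hp).1 hd with h | h
      · have := Nat.le_of_dvd (by norm_num) h
        omega
      · exact h
    · rintro ⟨⟨hp, hd, _⟩, h2⟩
      exact ⟨⟨hp, hd.mul_left 2, by omega⟩, h2⟩
  have h2 : C₂ = Pool.Agent.H560R3.GB.C₂ := rfl
  rw [h1, h2]
  push_cast
  ring

open Classical in
/-- **Forbidding a proportion `η` of the values of `x`.** -/
theorem result : ∃ c C : ℝ, 0 < c ∧ 0 < C ∧
    (∀ κ : ℝ, 0 ≤ κ → κ < 1 → ∀ B : ℕ, ∃ N₀ : ℕ, ∀ N : ℕ, N₀ ≤ N →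
      ∀ Y : Finset ℕ, Y ⊆ Icc 1 (2 * N) → ∀ η : ℝ, 0 < η → (Y.card : ℝ) ≤ η * N →
        (((Ioc N (2 * N)).filter (fun n => (solsOutside Y n : ℝ) ≤ κ * prediction n)).card : ℝ) ≤
          C * Real.exp (-Real.exp (c * (1 - κ) / √η)) * N + N / Real.log N ^ B) ∧
    (∀ B : ℕ, ∃ N₀ : ℕ, ∀ N : ℕ, N₀ ≤ N →
      ∀ η : ℝ, 0 < η → η ≤ 1 → Real.exp (Real.exp (C / √η)) ≤ Real.log N ^ B →
        ∃ Y : Finset ℕ, Y ⊆ Icc 1 (2 * N) ∧ (Y.card : ℝ) ≤ η * N ∧
          Real.exp (-Real.exp (C / √η)) * N ≤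
            ((Ioc N (2 * N)).filter (fun n => solsOutside Y n = 0)).card) := by
  obtain ⟨c, hc, hup⟩ := Pool.Agent.L0h44.AS.del_upper
  obtain ⟨C, hC, hlow⟩ := Pool.Agent.L0h44.AS.del_sharp
  refine ⟨c, max 32 C, hc, by positivity, ?_, ?_⟩
  · intro κ hκ0 hκ1 B
    obtain ⟨N0, h0⟩ := hup κ hκ0 hκ1 B
    refine ⟨N0, fun N hN Y hY η hη hYc => ?_⟩
    refine (h0 N hN Y hY η hη hYc _ (filter_subset _ _) ?_).trans ?_
    · intro n hn
      rw [mem_filter, mem_Ioc] at hn
      rw [← sols_eq, ← pred_eq n (by omega)]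
      exact hn.2
    · have h1 := Real.exp_pos (-Real.exp (c * (1 - κ) / √η))
      have h2 : (32 : ℝ) ≤ max 32 C := le_max_left _ _
      have h3 : (0 : ℝ) ≤ N := by positivity
      have h4 : 32 * Real.exp (-Real.exp (c * (1 - κ) / √η)) * N ≤ max 32 C * Real.exp (-Real.exp (c * (1 - κ) / √η)) * N :=
        mul_le_mul_of_nonneg_right (mul_le_mul_of_nonneg_right h2 h1.le) h3
      linarith
  · intro B
    obtain ⟨N0, h0⟩ := hlow B
    refine ⟨N0, fun N hN η hη hη1 hexp => ?_⟩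
    have hη0 : 0 < √η := Real.sqrt_pos.2 hη
    have hCle : C / √η ≤ max 32 C / √η := div_le_div_of_nonneg_right (le_max_right _ _) hη0.le
    have h1 : Real.exp (C / √η) ≤ Real.exp (max 32 C / √η) := Real.exp_le_exp.2 hCle
    obtain ⟨Y, hY, hYc, E, hE, hEc, hsol⟩ := h0 N hN η hη hη1 ((Real.exp_le_exp.2 h1).trans hexp)
    refine ⟨Y, hY, hYc, ?_⟩
    have h2 : E ⊆ (Ioc N (2 * N)).filter (fun n => solsOutside Y n = 0) := by
      intro n hn
      rw [mem_filter]
      refine ⟨hE hn, ?_⟩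
      rw [sols_eq]
      exact hsol n hn
    have h3 : (E.card : ℝ) ≤ ((Ioc N (2 * N)).filter (fun n => solsOutside Y n = 0)).card := by
      exact_mod_cast card_le_card h2
    refine le_trans ?_ (hEc.trans h3)
    apply mul_le_mul_of_nonneg_right _ (by positivity)
    apply Real.exp_le_exp.2
    linarith

end Pool.Agent.Results.MP_967f73_nt.DeletingSolutions
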